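import Pool.Agent.H.MP_cb32b9_nt.A

namespace Pool.Agent.Results.MP_cb32b9_nt.No

open Pool.Agent.H.MP_cb32b9_nt.A

def Bose (F : Type) {K : Type} [Field F] [Field K] [Algebra F K] (M : ℕ) (θ : K) : Set (ZMod M) :=
  {a | ∃ v : F, θ ^ a.val = θ + algebraMap F K v}

theorem result (F K : Type) [Field F] [Fintype F] [Field K] [Fintype K] [Algebra F K] (q : ℕ)
    (hF : Fintype.card F = q) (hK : Fintype.card K = q ^ 2) (θ : K) (hθ : orderOf θ = q ^ 2 - 1)
    (m : ℤ) (s : ZMod (q ^ 2 - 1)) :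
    ¬ ∀ t ∈ ({0, 1, 4, 10, 18, 23, 25} : Finset ℕ), ∃ a ∈ Bose F (q ^ 2 - 1) θ,
      (t : ZMod (q ^ 2 - 1)) = (m : ZMod (q ^ 2 - 1)) * a + s := by
  intro h
  have hq : 1 < q := hF ▸ Fintype.one_lt_card
  have hq2 : q < q ^ 2 - 1 := by
    have : q + 1 < q ^ 2 := by nlinarith
    omega
  generalize q ^ 2 - 1 = M at *
  have : Fact (1 < M) := ⟨by omega⟩
  have h1 : θ ^ M = 1 := hθ ▸ pow_orderOf_eq_one θ
  have h0 : θ ≠ 0 := fun e => by simp [e, show M ≠ 0 by omega] at h1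
  have add (a b : ZMod M) : θ ^ (a + b).val = θ ^ a.val * θ ^ b.val := by
    rw [ZMod.val_add, ← pow_add, ← pow_mod_orderOf θ (a.val + b.val), hθ]
  have mul (t : ℕ) (a : ZMod M) : θ ^ ((t : ZMod M) * a).val = (θ ^ a.val) ^ t := by
    induction t with
    | zero => simp
    | succ t ih => rw [Nat.cast_succ, add_mul, one_mul, add, ih, pow_succ]
  obtain ⟨a, ⟨v, ha⟩, e0⟩ := h 0 (by simp)
  obtain ⟨b, -, e1⟩ := h 1 (by simp)
  have hm : (m : ZMod M) * (b - a) = 1 := by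
    push_cast at e0 e1
    linear_combination e0 - e1
  set g := θ ^ (b - a).val with hg
  set c := θ ^ a.val with hc
  let σ := FiniteField.frobeniusAlgHom F K
  have fix (t : ℕ) (ht : t ∈ ({0, 1, 4, 10, 18, 23, 25} : Finset ℕ)) :
      σ c * (σ g ^ t - 1) = c * (g ^ t - 1) := by
    obtain ⟨x, ⟨w, hx⟩, e⟩ := h t ht
    have : x = a + t * (b - a) := by
      push_cast at e0
      linear_combination (a - x) * hm + (b - a) * (e0 - e)
    rw [this, add, mul, ← hg, ← hc] at hx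
    have : c * (g ^ t - 1) = algebraMap F K (w - v) := by
      rw [map_sub]
      linear_combination hx - ha
    rw [this, ← σ.commutes, ← this]
    simp only [map_mul, map_sub, map_pow, map_one]
  have c0 : c ≠ 0 := pow_ne_zero _ h0
  have g1 : g - 1 ≠ 0 := by
    intro e
    have := orderOf_dvd_of_pow_eq_one (sub_eq_zero.1 e)
    rw [hθ] at this
    rw [(ZMod.val_eq_zero _).1 (Nat.eq_zero_of_dvd_of_lt this (ZMod.val_lt _)), mul_zero] at hm
    exact zero_ne_one hm
  have G1 : σ g - 1 ≠ 0 := by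
    rw [← map_one σ, ← map_sub]
    exact (map_ne_zero σ).2 g1
  have f1 := fix 1 (by simp)
  rw [pow_one, pow_one] at f1
  have gG : g - σ g ≠ 0 := by
    intro e
    rw [← sub_eq_zero.1 e, mul_left_inj' g1, ha, map_add, σ.commutes, add_left_inj] at f1
    have f2 : θ ^ (q - 1) * θ = 1 * θ := by
      rw [← pow_succ, Nat.sub_add_cancel hq.le, one_mul, ← hF]
      exact f1
    have := Nat.le_of_dvd (by omega) (orderOf_dvd_of_pow_eq_one (mul_right_cancel₀ h0 f2))
    omega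
  have z (t : ℕ) (ht : t ∈ ({0, 1, 4, 10, 18, 23, 25} : Finset ℕ)) :
      H (g + σ g) (g * σ g) t = 0 := by
    apply mul_left_cancel₀ (mul_ne_zero c0 (mul_ne_zero (mul_ne_zero g1 G1) gG))
    rw [mul_assoc, ← key, mul_zero]
    linear_combination (σ g ^ t - 1) * f1 - (σ g - 1) * fix t ht
  exact no _ _ (z 4 (by simp)) (z 10 (by simp)) (z 23 (by simp)) (z 25 (by simp))

end Pool.Agent.Results.MP_cb32b9_nt.No
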